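import Pool.Agent.Q113.XM.Stm

/-!
# Project XM, job XM-CRB: the crude bound in the clique range
-/

set_option autoImplicit false

namespace Pool.Agent.Q199.XM

open Finset Pool.Agent.W890.SF Pool.Agent.W593.IR Pool.Agent.Q54.EM Pool.Agent.Q113.XM

theorem pow_diff (n : ℕ) {a b : ℝ} (hb : 0 ≤ b) (hab : b ≤ a) (ha : a ≤ 1) :
    a ^ n ≤ b ^ n + n * (a - b) := by
  induction n with
  | zero => simp
  | succ n ih =>
    have h1 : a ^ (n + 1) - b ^ (n + 1) = a * (a ^ n - b ^ n) + b ^ n * (a - b) := by ring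
    have h2 : b ^ n ≤ 1 := pow_le_one₀ hb (hab.trans ha)
    have h3 : b ^ n * (a - b) ≤ 1 * (a - b) := mul_le_mul_of_nonneg_right h2 (by linarith)
    have h4 : 0 ≤ a ^ n - b ^ n := sub_nonneg.2 (pow_le_pow_left₀ hb hab n)
    have h5 : a * (a ^ n - b ^ n) ≤ 1 * (a ^ n - b ^ n) := mul_le_mul_of_nonneg_right ha h4
    push_cast
    linarith

theorem t_CRB : S_CRF → S_PRT → S_CRB := by
  intro hF hP k hk hL c hc e0 ξ he0 hξ
  have hk2 : (2 : ℝ) ≤ k := by exact_mod_cast hk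
  have hk0 : (0 : ℝ) < k := by linarith
  obtain ⟨_, hF2, _⟩ := hF k hk c hc
  set ε : ℝ := min (min e0 (ξ / k)) (1 / 2) with hε
  have hε0 : 0 < ε := lt_min (lt_min he0 (by positivity)) (by norm_num)
  have hεe : ε ≤ e0 := (min_le_left _ _).trans (min_le_left _ _)
  have hεξ : ε ≤ ξ / k := (min_le_left _ _).trans (min_le_right _ _)
  have hε2 : ε ≤ 1 / 2 := min_le_right _ _
  have hεk : (k : ℝ) * ε ≤ ξ := by
    rw [le_div_iff₀ hk0] at hεξ
    linarith
  have h1ε : 0 < 1 - ε := by linarith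
  set D : ℝ := k * ε * (1 - ε) ^ (k - 1) with hD
  have hD0 : 0 < D := by positivity
  refine ⟨k ^ 2 / D, by positivity, ?_⟩
  intro x hx1 hx2 ι _ p y η z hW hmu hη hU hz0 hz1
  have hx0 : 0 < x := by linarith [hc.1]
  have hx3 : x ≤ 1 := by nlinarith
  set x' : ℝ := (1 - ε) * x + ε * z with hx'
  have hx'0 : 0 ≤ x' := by positivity
  have hkx' : (k : ℝ) * x' ≤ 1 := by
    have h1 : (k : ℝ) * x' = (k : ℝ) * x - ε * (k * x) + (k * ε) * z := by rw [hx']; ring
    have h2 : 0 ≤ ε * (k * x) := by positivity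
    have h3 : (k * ε) * z ≤ k * ε := by
      have : (0 : ℝ) ≤ k * ε := by positivity
      nlinarith
    rw [h1]
    linarith
  have hcx' : c ≤ x' := by
    have h1 : x' = x - ε * x + ε * z := by rw [hx']; ring
    have h2 : 0 ≤ ε * z := by positivity
    have h3 : ε * x ≤ ε := by nlinarith
    rw [h1]
    linarith
  have hPR := hP k hk hL ι p y z ε x' hW hz0 hε0.le (by linarith) (by
    rw [hx']
    have := mul_le_mul_of_nonneg_left hmu h1ε.le
    linarith) hx'0 hkx'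
  rw [hF2 x' hcx' hkx'] at hPR
  have hpd := pow_diff k (a := (k : ℝ) * x') (b := (1 - ε) * (k * x)) (by positivity) (by
    have : (k : ℝ) * x' = (1 - ε) * (k * x) + k * ε * z := by rw [hx']; ring
    rw [this]
    have : 0 ≤ (k : ℝ) * ε * z := by positivity
    linarith) hkx'
  have hdiff : (k : ℝ) * x' - (1 - ε) * (k * x) = k * ε * z := by rw [hx']; ring
  have e1 : ((1 - ε) * ((k : ℝ) * x)) ^ k = (1 - ε) ^ k * ((k : ℝ) * x) ^ k := mul_pow _ _ _
  rw [hdiff, e1] at hpd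
  have hA : (0 : ℝ) ≤ (1 - ε) ^ k := by positivity
  have hA1 : (1 - ε) ^ k ≤ 1 := pow_le_one₀ h1ε.le (by linarith)
  have hU' := mul_le_mul_of_nonneg_left hU hA
  have h1 : D * UP p y (k - 1) (1 - z) ≤ k * (k * ε * z) + (1 - ε) ^ k * η := by
    rw [hD]
    linarith
  have h2 : k * (k * ε * z) ≤ (k : ℝ) ^ 2 * z := by
    have : k * (k * ε * z) = ε * ((k : ℝ) ^ 2 * z) := by ring
    rw [this]
    have h3 : 0 ≤ (k : ℝ) ^ 2 * z := by positivity
    nlinarith
  have h3 : (1 - ε) ^ k * η ≤ (k : ℝ) ^ 2 * η := by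
    refine mul_le_mul_of_nonneg_right ?_ hη
    nlinarith
  rw [div_mul_eq_mul_div, le_div_iff₀ hD0, mul_comm _ D]
  linarith

end Pool.Agent.Q199.XM
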