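import Pool.Agent.Q113.XM.Stm

/-!
# Project XM, job XM-CRF: facts on the critical density
-/

set_option autoImplicit false

namespace Pool.Agent.Q199.XM

open Finset Pool.Agent.W890.SF Pool.Agent.W593.IR Pool.Agent.Q54.EM Pool.Agent.Q113.XM

/-- convexity of the function `(k x)^k + (1 - x)^k` along a segment which starts at zero -/
theorem hconv {k : ℕ} (hk : 1 ≤ k) {l x : ℝ} (hl0 : 0 ≤ l) (hl1 : l ≤ 1) (hx0 : 0 ≤ x)
    (hx1 : x ≤ 1) : ((k : ℝ) * (l * x)) ^ k + (1 - l * x) ^ k ≤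
      (1 - l) + l * (((k : ℝ) * x) ^ k + (1 - x) ^ k) := by
  have h1 : ((k : ℝ) * (l * x)) ^ k ≤ l * ((k : ℝ) * x) ^ k := by
    have e : ((k : ℝ) * (l * x)) ^ k = l ^ k * ((k : ℝ) * x) ^ k := by
      rw [← mul_pow]; congr 1; ring
    rw [e]
    refine mul_le_mul_of_nonneg_right ?_ (by positivity)
    calc l ^ k ≤ l ^ 1 := pow_le_pow_of_le_one hl0 hl1 hk
      _ = l := pow_one l
  have h2 : (1 - l * x) ^ k ≤ (1 - l) + l * (1 - x) ^ k := by
    have h3 := (convexOn_pow (𝕜 := ℝ) k).2 (show (1 : ℝ) ∈ Set.Ici 0 by simp)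
      (show 1 - x ∈ Set.Ici (0 : ℝ) by simpa using hx1) (show 0 ≤ 1 - l by linarith) hl0
      (by ring)
    simp only [smul_eq_mul, mul_one, one_pow] at h3
    have e : (1 - l) + l * (1 - x) = 1 - l * x := by ring
    rwa [e] at h3
  linarith

theorem bern2 (k : ℕ) {t : ℝ} (h0 : 0 ≤ t) (h1 : t ≤ 1) :
    (1 - t) ^ k ≤ 1 - k * t + (k : ℝ) * (k - 1) / 2 * t ^ 2 := by
  induction k with
  | zero => simp
  | succ k ih =>
    have h2 : (1 - t) ^ (k + 1) ≤ (1 - t) * (1 - k * t + (k : ℝ) * (k - 1) / 2 * t ^ 2) := by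
      rw [pow_succ, mul_comm]
      exact mul_le_mul_of_nonneg_left ih (by linarith)
    refine h2.trans ?_
    have h3 : 0 ≤ (k : ℝ) * (k - 1) / 2 * t ^ 3 := by
      rcases Nat.eq_zero_or_pos k with rfl | hk
      · simp
      · have : (1 : ℝ) ≤ k := by exact_mod_cast hk
        have : 0 ≤ (k : ℝ) - 1 := by linarith
        positivity
    push_cast
    nlinarith

theorem t_CRF : S_CRF := by
  intro k hk c hc
  obtain ⟨hc0, hc1, hc2⟩ := hc
  have hk2 : (2 : ℝ) ≤ k := by exact_mod_cast hk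
  have hk0 : (0 : ℝ) < k := by linarith
  have hc3 : c ≤ 1 := by nlinarith
  refine ⟨fun x hx0 hxc => ?_, fun x hcx hx1 => ?_, ?_⟩
  · unfold mv
    refine max_eq_left ?_
    have h := hconv (k := k) (by omega) (l := x / c) (x := c) (by positivity)
      ((div_le_one hc0).2 hxc) hc0.le hc3
    rw [div_mul_cancel₀ x hc0.ne', hc2] at h
    linarith
  · unfold mv
    refine max_eq_right ?_
    have hx0 : 0 < x := lt_of_lt_of_le hc0 hcx
    have hx2 : x ≤ 1 := by nlinarith
    have h := hconv (k := k) (by omega) (l := c / x) (x := x) (by positivity)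
      ((div_le_one hx0).2 hcx) hx0.le hx2
    rw [div_mul_cancel₀ c hx0.ne', hc2] at h
    have hl : 0 < c / x := by positivity
    have h2 : c / x * 1 ≤ c / x * (((k : ℝ) * x) ^ k + (1 - x) ^ k) := by linarith
    have h3 := le_of_mul_le_mul_left h2 hl
    linarith
  · have h := bern2 k hc0.le hc3
    have hu : 0 < (k : ℝ) * c := by positivity
    have h1 : ((k : ℝ) * c) ^ k = (k : ℝ) * c * ((k : ℝ) * c) ^ (k - 1) := by
      rw [← pow_succ']
      congr 1
      omega
    have h2 : (k : ℝ) * c / 2 < ((k : ℝ) * c) ^ k := by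
      have h3 : (k : ℝ) * (k - 1) / 2 * c ^ 2 < (k : ℝ) * c / 2 := by
        have : (k : ℝ) * (k - 1) / 2 * c ^ 2 = ((k : ℝ) * c / 2) * ((k : ℝ) * c - c) := by ring
        rw [this]
        have h4 : (k : ℝ) * c - c < 1 := by linarith
        calc (k : ℝ) * c / 2 * ((k : ℝ) * c - c) < (k : ℝ) * c / 2 * 1 :=
              mul_lt_mul_of_pos_left h4 (by positivity)
          _ = (k : ℝ) * c / 2 := mul_one _
      linarith
    rw [h1] at h2
    have h5 : (k : ℝ) * c * (1 / 2) < (k : ℝ) * c * ((k : ℝ) * c) ^ (k - 1) := by linarith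
    have h6 := lt_of_mul_lt_mul_left h5 hu.le
    linarith

end Pool.Agent.Q199.XM
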